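import Pool.Agent.W64.DM.Stm

/-!
# Project DM, part FIRST: the first moment
-/

set_option autoImplicit false

namespace Pool.Agent.W828.DM.First

open MeasureTheory Set Filter Pool.Agent.W64.DM

variable {d : ℕ}

theorem sum_FV (R : ℕ) (i0 : Fin d) (f : Ix d → ℝ) :
    ∑ v ∈ FV d R i0, f v = ∑ a ∈ AA d R, ∑ b ∈ Finset.Ico R (2 * R),
      ∑ q ∈ (bx a ×ˢ Finset.Ico (2 ^ b) (2 ^ (b + 1))).filter
        (fun q => Nat.Coprime (q.1 i0) q.2), f (a, b, q.1, q.2) := by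
  unfold FV
  rw [Finset.sum_biUnion]
  · refine Finset.sum_congr rfl fun a _ => ?_
    rw [Finset.sum_biUnion]
    · refine Finset.sum_congr rfl fun b _ => ?_
      rw [Finset.sum_image]
      rintro ⟨m, n⟩ _ ⟨m', n'⟩ _ h
      simp only [Prod.mk.injEq, true_and] at h
      exact Prod.ext h.1 h.2
    · intro b _ b' _ hbb
      rw [Function.onFun, Finset.disjoint_left]
      intro v hv hv'
      obtain ⟨q, -, rfl⟩ := Finset.mem_image.1 hv
      obtain ⟨q', -, h⟩ := Finset.mem_image.1 hv'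
      simp only [Prod.mk.injEq, true_and] at h
      exact hbb h.1.symm
  · intro a _ a' _ haa
    rw [Function.onFun, Finset.disjoint_left]
    intro v hv hv'
    obtain ⟨b, -, h1⟩ := Finset.mem_biUnion.1 hv
    obtain ⟨b', -, h2⟩ := Finset.mem_biUnion.1 hv'
    obtain ⟨q, -, rfl⟩ := Finset.mem_image.1 h1
    obtain ⟨q', -, h⟩ := Finset.mem_image.1 h2
    simp only [Prod.mk.injEq] at h
    exact haa h.1.symm

/-- number of pairs `(m, n)` with given exponents -/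
def FF (a : Fin d → ℕ) (b : ℕ) (i0 : Fin d) : ℕ :=
  ((bx a ×ˢ Finset.Ico (2 ^ b) (2 ^ (b + 1))).filter (fun q => Nat.Coprime (q.1 i0) q.2)).card

theorem card_Ico (b : ℕ) : (Finset.Ico (2 ^ b) (2 ^ (b + 1))).card = 2 ^ b := by
  rw [Nat.card_Ico, pow_succ]; omega

theorem card_bx (a : Fin d → ℕ) : (bx a).card = 2 ^ ∑ i, a i := by
  unfold bx
  rw [Fintype.card_piFinset, Finset.prod_congr rfl fun i _ => card_Ico (a i),
    Finset.prod_pow_eq_pow_sum]

theorem FF_le (a : Fin d → ℕ) (b : ℕ) (i0 : Fin d) : FF a b i0 ≤ 2 ^ (∑ i, a i + b) := by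
  unfold FF
  refine (Finset.card_filter_le _ _).trans ?_
  rw [Finset.card_product, card_bx, card_Ico, pow_add]

theorem sum_pi (a : Fin d → ℕ) (i0 : Fin d) (g : ℕ → ℕ) :
    ∑ m ∈ bx a, g (m i0) = (∑ x ∈ Finset.Ico (2 ^ a i0) (2 ^ (a i0 + 1)), g x) *
      ∏ i ∈ Finset.univ.erase i0, 2 ^ a i := by
  have h := Finset.prod_univ_sum (fun i => Finset.Ico (2 ^ a i) (2 ^ (a i + 1)))
    (fun i x => if i = i0 then g x else 1)
  have h2 : ∀ m : Fin d → ℕ, ∏ i, (if i = i0 then g (m i) else 1) = g (m i0) := by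
    intro m
    rw [Finset.prod_ite_eq' Finset.univ i0]
    simp
  have h3 : ∑ m ∈ bx a, g (m i0) = ∏ i, ∑ x ∈ Finset.Ico (2 ^ a i) (2 ^ (a i + 1)),
      (if i = i0 then g x else 1) := by
    rw [h]
    exact Finset.sum_congr rfl fun m _ => (h2 m).symm
  rw [h3, ← Finset.mul_prod_erase Finset.univ _ (Finset.mem_univ i0)]
  congr 1
  · simp
  · refine Finset.prod_congr rfl fun i hi => ?_
    have := (Finset.mem_erase.1 hi).1
    simp only [this, if_false, Finset.sum_const, smul_eq_mul, mul_one]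
    exact card_Ico (a i)

theorem FF_eq (a : Fin d → ℕ) (b : ℕ) (i0 : Fin d) :
    FF a b i0 = ((Finset.Ico (2 ^ a i0) (2 ^ (a i0 + 1)) ×ˢ
      Finset.Ico (2 ^ b) (2 ^ (b + 1))).filter fun q => Nat.Coprime q.1 q.2).card *
      ∏ i ∈ Finset.univ.erase i0, 2 ^ a i := by
  unfold FF
  rw [Finset.card_filter, Finset.card_filter, Finset.sum_product, Finset.sum_product]
  exact sum_pi a i0 fun x => ∑ n ∈ Finset.Ico (2 ^ b) (2 ^ (b + 1)),
    if Nat.Coprime x n then 1 else 0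

theorem le_FF {b0 : ℕ} (h0 : ∀ a b : ℕ, b0 ≤ b → b ≤ a →
    2 ^ (a + b) ≤ 8 * ((Finset.Ico (2 ^ a) (2 ^ (a + 1)) ×ˢ Finset.Ico (2 ^ b) (2 ^ (b + 1))).filter
    fun q => Nat.Coprime q.1 q.2).card) (a : Fin d → ℕ) (b : ℕ) (i0 : Fin d) (hb : b0 ≤ b)
    (hba : b ≤ a i0) : 2 ^ (∑ i, a i + b) ≤ 8 * FF a b i0 := by
  rw [FF_eq, ← mul_assoc]
  have e : 2 ^ (∑ i, a i + b) = 2 ^ (a i0 + b) * ∏ i ∈ Finset.univ.erase i0, 2 ^ a i := by
    rw [Finset.prod_pow_eq_pow_sum, ← pow_add, ← Finset.add_sum_erase _ _ (Finset.mem_univ i0)]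
    congr 1
    ring
  rw [e]
  exact Nat.mul_le_mul_right _ (h0 _ _ hb hba)

theorem main (hV : S_VOL) (hC : S_COP) : S_FIRST := by
  intro d α i0
  obtain ⟨b0, hb0⟩ := hC
  have hd : 1 ≤ d := by have := i0.2; omega
  have hd' : (1 : ℝ) ≤ d := by exact_mod_cast hd
  set B : ℝ := ((4 * d + 2 : ℝ)) ^ (d + 1) * 2 ^ (d + 1) with hB
  have hB2 : 2 ≤ B := by
    rw [hB, ← mul_pow]
    calc (2 : ℝ) ≤ ((4 * d + 2 : ℝ) * 2) ^ 1 := by rw [pow_one]; linarith
      _ ≤ ((4 * d + 2 : ℝ) * 2) ^ (d + 1) := pow_le_pow_right₀ (by linarith) (by omega)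
  have hB0 : 0 < B := by linarith
  refine ⟨2 / B / 8, by positivity, max b0 1, fun R hR => ?_⟩
  have hR1 : 1 ≤ R := (le_max_right _ _).trans hR
  have hRb : b0 ≤ R := (le_max_left _ _).trans hR
  have hR1' : (1 : ℝ) ≤ R := by exact_mod_cast hR1
  have hR0' : (0 : ℝ) < R := by linarith
  -- the radius
  have hrad : ∀ (a : Fin d → ℕ) (b : ℕ),
      2 * rad d R a b = 2 / B / (R : ℝ) ^ (d + 1) / 2 ^ (∑ i, a i + b) := by
    intro a b
    unfold rad
    rw [hB, mul_pow, pow_add 2 (∑ i, a i + b)]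
    field_simp
  have hradp : ∀ (a : Fin d → ℕ) (b : ℕ), 0 ≤ rad d R a b := by
    intro a b
    unfold rad
    positivity
  have hradh : ∀ (a : Fin d → ℕ) (b : ℕ), rad d R a b ≤ 1 / 2 := by
    intro a b
    have h1 : 2 * rad d R a b ≤ 1 := by
      rw [hrad]
      have h2 : (1 : ℝ) ≤ (R : ℝ) ^ (d + 1) := one_le_pow₀ hR1'
      have h3 : (1 : ℝ) ≤ 2 ^ (∑ i, a i + b) := one_le_pow₀ (by norm_num)
      have h4 : 2 / B ≤ 1 := by rw [div_le_one hB0]; exact hB2
      have h5 : 2 / B / (R : ℝ) ^ (d + 1) ≤ 1 := by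
        rw [div_le_one (by linarith)]; linarith
      rw [div_le_one (by linarith)]; linarith
    linarith
  -- the sum
  have hsum : ∑ v ∈ FV d R i0, (volume (EE α R v)).toReal =
      ∑ a ∈ AA d R, ∑ b ∈ Finset.Ico R (2 * R),
        (FF a b i0 : ℝ) * (2 / B / (R : ℝ) ^ (d + 1) / 2 ^ (∑ i, a i + b)) := by
    rw [sum_FV]
    refine Finset.sum_congr rfl fun a _ => Finset.sum_congr rfl fun b _ => ?_
    rw [← hrad]
    unfold FF
    rw [← nsmul_eq_mul, ← Finset.sum_const]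
    refine Finset.sum_congr rfl fun q hq => ?_
    have hq1 := (Finset.mem_product.1 (Finset.mem_filter.1 hq).1).2
    have hq2 : 1 ≤ q.2 := le_trans Nat.one_le_two_pow (Finset.mem_Ico.1 hq1).1
    exact hV q.2 (dotp α (fun i => (q.1 i : ℤ))) (rad d R a b) hq2 (hradp a b) (hradh a b)
  have hcard : ∑ a ∈ AA d R, ∑ b ∈ Finset.Ico R (2 * R), (2 / B / (R : ℝ) ^ (d + 1)) = 2 / B := by
    rw [Finset.sum_const, Finset.sum_const, Nat.card_Ico]
    unfold AA
    rw [Fintype.card_piFinset]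
    simp only [Nat.card_Ico, Finset.prod_const, Finset.card_univ, Fintype.card_fin, nsmul_eq_mul]
    have e1 : 4 * R - 3 * R = R := by omega
    have e2 : 2 * R - R = R := by omega
    rw [e1, e2]
    push_cast
    field_simp
    ring
  have hpos : 0 < 2 / B / (R : ℝ) ^ (d + 1) := by positivity
  rw [hsum]
  generalize 2 / B / (R : ℝ) ^ (d + 1) = κ at *
  constructor
  · have h1 : 2 / B / 8 = ∑ a ∈ AA d R, ∑ b ∈ Finset.Ico R (2 * R),
        κ / 8 := by
      rw [← hcard]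
      simp only [Finset.sum_div]
    rw [h1]
    refine Finset.sum_le_sum fun a ha => Finset.sum_le_sum fun b hb => ?_
    have ha1 : 3 * R ≤ a i0 := (Finset.mem_Ico.1 (Fintype.mem_piFinset.1 ha i0)).1
    obtain ⟨hb1, hb2⟩ := Finset.mem_Ico.1 hb
    have h2 : ((2 : ℝ) ^ (∑ i, a i + b)) ≤ 8 * FF a b i0 := by
      exact_mod_cast le_FF hb0 a b i0 (by omega) (by omega)
    have h3 : (0 : ℝ) < 2 ^ (∑ i, a i + b) := by positivity
    rw [mul_div_assoc', div_le_div_iff₀ (by norm_num) h3]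
    nlinarith
  · have h1 : ∑ a ∈ AA d R, ∑ b ∈ Finset.Ico R (2 * R),
        (FF a b i0 : ℝ) * (κ / 2 ^ (∑ i, a i + b)) ≤ 2 / B := by
      rw [← hcard]
      refine Finset.sum_le_sum fun a _ => Finset.sum_le_sum fun b _ => ?_
      have h2 : (FF a b i0 : ℝ) ≤ 2 ^ (∑ i, a i + b) := by exact_mod_cast FF_le a b i0
      have h3 : (0 : ℝ) < 2 ^ (∑ i, a i + b) := by positivity
      rw [mul_div_assoc', div_le_iff₀ h3]
      nlinarith
    refine h1.trans ?_
    rw [div_le_one hB0]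
    exact hB2

end Pool.Agent.W828.DM.First
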